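import Pool.Agent.Q91.JC.Stm

set_option autoImplicit false

/-!
# The case `s = d` (job SD of project JC)
-/

namespace Pool.Agent.Q53.JC

open MeasureTheory Finset Q91.JC

/-- powers of large numbers -/
theorem pow_dom (K a b : ℝ) (hab : a < b) : ∃ N0 : ℝ, 1 ≤ N0 ∧ ∀ N : ℝ, N0 ≤ N → K * N ^ a < N ^ b := by
  have h1 := (tendsto_rpow_atTop (y := b - a) (by linarith)).eventually (Filter.eventually_gt_atTop K)
  obtain ⟨N0, hN0⟩ := Filter.eventually_atTop.1 h1
  refine ⟨max N0 1, le_max_right _ _, fun N hN => ?_⟩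
  have hN1 : 1 ≤ N := (le_max_right _ _).trans hN
  have hpos : 0 < N := by linarith
  have h2 := hN0 N ((le_max_left _ _).trans hN)
  have h3 : N ^ b = N ^ (b - a) * N ^ a := by
    rw [← Real.rpow_add hpos]
    congr 1
    ring
  rw [h3]
  exact mul_lt_mul_of_pos_right h2 (Real.rpow_pos_of_pos hpos a)

theorem params (n ω : ℝ) (hn : 1 ≤ n) (hω : n < ω) : ∃ ω' γ γ' : ℝ, 0 < ω' ∧ 0 < γ' ∧
    1 / n < γ' ∧ γ' < γ ∧ ω' * (1 + γ) < ω + 1 ∧ γ * (n - 1) + 1 / ω' < 1 := by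
  set η := min (ω - n) 1 / 4 with hη
  have h0 : 0 < η := by
    rw [hη]
    have : 0 < min (ω - n) 1 := lt_min (by linarith) one_pos
    positivity
  have h1 : 4 * η ≤ ω - n := by
    rw [hη]
    have := min_le_left (ω - n) 1
    linarith
  have h2 : η ≤ 1 / 4 := by
    rw [hη]
    have := min_le_right (ω - n) 1
    linarith
  have hnp : 0 < n := by linarith
  set ζ := η / (2 * n * n * (n + η)) with hζ
  have hζ0 : 0 < ζ := by rw [hζ]; positivity
  have hζn : ζ * (n + η) = η / (2 * n * n) := by rw [hζ]; field_simp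
  have h3 : ζ * (n + η) ≤ η := by
    rw [hζn, div_le_iff₀ (by positivity)]
    nlinarith [mul_nonneg h0.le (by nlinarith : (0:ℝ) ≤ n * n - 1)]
  refine ⟨n + η, 1 / n + ζ, 1 / n + ζ / 2, by positivity, by positivity, by linarith,
    by linarith, ?_, ?_⟩
  · have h4 : (n + η) * (1 + (1 / n + ζ)) = n + η + 1 + η / n + ζ * (n + η) := by
      field_simp
      ring
    have h5 : η / n ≤ η := div_le_self h0.le hn
    rw [h4]
    linarith
  · have h4 : ζ * (n - 1) < η / (n * (n + η)) := by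
      have h5 : ζ * (n - 1) ≤ ζ * n := by nlinarith
      have h6 : ζ * n = η / (2 * n * (n + η)) := by rw [hζ]; field_simp
      have h7 : η / (2 * n * (n + η)) < η / (n * (n + η)) := by
        apply div_lt_div_of_pos_left h0 (by positivity)
        nlinarith [mul_pos hnp (by positivity : (0:ℝ) < n + η)]
      linarith
    have h8 : (1 / n + ζ) * (n - 1) + 1 / (n + η) =
        1 + (ζ * (n - 1) - η / (n * (n + η))) := by
      field_simp
      ring
    rw [h8]
    linarith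

theorem big_q {m : ℕ} {P : (Fin m → ℤ) → Prop} (h : {q | P q}.Infinite) (B : ℝ) :
    ∃ q, P q ∧ B < ‖(fun j => (q j : ℝ))‖ := by
  by_contra hcon
  push Not at hcon
  apply h
  refine (Set.finite_Icc (fun _ : Fin m => -⌈B⌉) (fun _ => ⌈B⌉)).subset ?_
  intro q hq
  have h1 := hcon q hq
  have h2 : ∀ j, |(q j : ℝ)| ≤ B := fun j => (norm_le_pi_norm (fun j => (q j : ℝ)) j).trans h1
  have h3 : B ≤ ⌈B⌉ := Int.le_ceil B
  constructor
  · intro j
    have h4 := (abs_le.1 (h2 j)).1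
    have : ((-⌈B⌉ : ℤ) : ℝ) ≤ q j := by push_cast; linarith
    exact_mod_cast this
  · intro j
    have h4 := (abs_le.1 (h2 j)).2
    have : (q j : ℝ) ≤ (⌈B⌉ : ℤ) := by linarith
    exact_mod_cast this

theorem nearInt_lt {n : ℕ} {y : Fin n → ℝ} {c : ℝ} (h : nearInt y < c) :
    ∃ k : Fin n → ℤ, ‖y - (fun i => (k i : ℝ))‖ < c := by
  unfold nearInt at h
  obtain ⟨_, ⟨k, rfl⟩, hk⟩ := exists_lt_of_csInf_lt (Set.range_nonempty _) h
  exact ⟨k, hk⟩

theorem nearInt_le {n : ℕ} {y : Fin n → ℝ} {c : ℝ} (k : Fin n → ℤ)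
    (h : ‖y - (fun i => (k i : ℝ))‖ ≤ c) : nearInt y ≤ c := by
  refine le_trans (csInf_le ?_ ⟨k, rfl⟩) h
  refine ⟨0, ?_⟩
  rintro _ ⟨k, rfl⟩
  exact norm_nonneg _

theorem core (hGP : S_GP) {d m : ℕ} (A : Matrix (Fin (d + 1)) (Fin m) ℝ) (ω ω' γ : ℝ)
    (hd : 1 ≤ d) (hω0 : 0 < ω) (hω' : 0 < ω') (hγ : 0 < γ) (hb : ω' * (1 + γ) < ω + 1)
    (hc : γ * (((d + m : ℕ) : ℝ) - 1) + 1 / ω' < 1)
    (hinf : {q : Fin m → ℤ | nearInt (A.mulVec (fun j => (q j : ℝ))) <
      ‖(fun j => (q j : ℝ))‖ ^ (-ω)}.Infinite)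
    (x : Fin d → ℝ) (hx : ∀ i, |x i| ≤ 1) (V0 : ℝ) :
    ∃ V : ℝ, V0 ≤ V ∧ 1 ≤ V ∧ ∃ q : ℕ, 1 ≤ q ∧ (q : ℝ) ≤ V ∧
      nearInt (fun l => (q : ℝ) * Fin.append x (lam A 1 x) l) ≤ V ^ (-γ) := by
  set n := d + m with hn
  have hn1 : 1 ≤ n := by omega
  set SA := ∑ i, ∑ j, |A i j| with hSA
  have hSA0 : 0 ≤ SA := sum_nonneg fun i _ => sum_nonneg fun j _ => abs_nonneg _
  have hcast : ((n - 1 : ℕ) : ℝ) = (n : ℝ) - 1 := by
    rw [Nat.cast_sub hn1, Nat.cast_one]
  obtain ⟨N1, hN1, hE1⟩ := pow_dom (4 * (d + 1)) (ω' - ω) (1 - ω' * γ) (by linarith)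
  obtain ⟨N2, hN2, hE2⟩ := pow_dom ((3 * n : ℝ) ^ (n - 1) * ((2 * n + 3) * (SA + 1)))
    (ω' * γ * (n - 1) + 1) ω' (by
      have h1 : ω' * (γ * ((n : ℝ) - 1) + 1 / ω') < ω' * 1 := by
        apply mul_lt_mul_of_pos_left _ hω'
        exact_mod_cast hc
      have h2 : ω' * (γ * ((n : ℝ) - 1) + 1 / ω') = ω' * γ * (n - 1) + 1 := by
        field_simp
      linarith)
  obtain ⟨N3, hN3, hE3⟩ := pow_dom V0 0 ω' hω'
  obtain ⟨q0, hq0, hbig⟩ := big_q hinf (max N1 (max N2 N3))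
  set N := ‖(fun j => (q0 j : ℝ))‖ with hN
  have hNN1 : N1 ≤ N := (le_max_left _ _).trans hbig.le
  have hNN2 : N2 ≤ N := ((le_max_left _ _).trans (le_max_right _ _)).trans hbig.le
  have hNN3 : N3 ≤ N := ((le_max_right _ _).trans (le_max_right _ _)).trans hbig.le
  have hN1' : 1 ≤ N := hN1.trans hNN1
  have hNp : 0 < N := by linarith
  have hE1 := hE1 N hNN1
  have hE2 := hE2 N hNN2
  have hE3 := hE3 N hNN3
  rw [Real.rpow_zero, mul_one] at hE3
  set V := N ^ ω' with hV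
  have hV1 : 1 ≤ V := Real.one_le_rpow hN1' hω'.le
  have hVp : 0 < V := by linarith
  have hψ : V ^ (-γ) = N ^ (-(ω' * γ)) := by
    rw [hV, ← Real.rpow_mul hNp.le]
    congr 1
    ring
  have hψ0 : 0 < V ^ (-γ) := Real.rpow_pos_of_pos hVp _
  have hψ1 : V ^ (-γ) ≤ 1 := Real.rpow_le_one_of_one_le_of_nonpos hV1 (by linarith)
  refine ⟨V, hE3.le, hV1, ?_⟩
  -- the integer vector
  set a : Fin (d + 1) → ℝ := A.mulVec (fun j => (q0 j : ℝ)) with ha
  have haj : ∀ i, a i = ∑ j, A i j * (q0 j : ℝ) := fun i => rfl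
  obtain ⟨k, hk⟩ := nearInt_lt hq0
  set e := N ^ (-ω) with he
  have he1 : e ≤ 1 := Real.rpow_le_one_of_one_le_of_nonpos hN1' (by linarith)
  have he0 : 0 < e := Real.rpow_pos_of_pos hNp _
  have hke : ∀ i, |a i - k i| ≤ e := fun i =>
    (norm_le_pi_norm (a - fun i => (k i : ℝ)) i).trans hk.le
  set h : Fin n → ℤ := Fin.append (fun i : Fin d => -k i.succ) q0 with hh
  set H := ‖(fun l => (h l : ℝ))‖ with hH
  have hql : ∀ j, |(q0 j : ℝ)| ≤ N := fun j => norm_le_pi_norm (fun j => (q0 j : ℝ)) j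
  have hhl : ∀ l, |(h l : ℝ)| ≤ H := fun l => norm_le_pi_norm (fun l => (h l : ℝ)) l
  have hHN : N ≤ H := by
    rw [hN, pi_norm_le_iff_of_nonneg (norm_nonneg _)]
    intro j
    have := hhl (Fin.natAdd d j)
    rw [hh, Fin.append_right] at this
    exact this
  have hH1 : 1 ≤ H := hN1'.trans hHN
  have hHp : 0 < H := by linarith
  have hkb : ∀ i, |(k i : ℝ)| ≤ (SA + 1) * N := by
    intro i
    have h1 : |a i| ≤ SA * N := by
      rw [haj i]
      calc |∑ j, A i j * (q0 j : ℝ)| ≤ ∑ j, |A i j * (q0 j : ℝ)| := abs_sum_le_sum_abs _ _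
        _ ≤ ∑ j, |A i j| * N := by
            refine sum_le_sum fun j _ => ?_
            rw [abs_mul]
            exact mul_le_mul_of_nonneg_left (hql j) (abs_nonneg _)
        _ = (∑ j, |A i j|) * N := by rw [sum_mul]
        _ ≤ SA * N := by
            apply mul_le_mul_of_nonneg_right _ hNp.le
            exact single_le_sum (f := fun i => ∑ j, |A i j|)
              (fun i _ => sum_nonneg fun j _ => abs_nonneg _) (mem_univ i)
    have h2 : |(k i : ℝ)| ≤ |a i| + |a i - k i| := by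
      have := abs_sub_abs_le_abs_sub (k i : ℝ) (a i)
      rw [abs_sub_comm (k i : ℝ) (a i)] at this
      linarith
    have h3 := hke i
    nlinarith
  have hHC : H ≤ (SA + 1) * N := by
    rw [hH, pi_norm_le_iff_of_nonneg (by positivity)]
    intro l
    refine Fin.addCases (fun i => ?_) (fun j => ?_) l
    · rw [hh, Fin.append_left]
      rw [Real.norm_eq_abs]
      push_cast
      rw [abs_neg]
      exact hkb _
    · rw [hh, Fin.append_right, Real.norm_eq_abs]
      have := hql j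
      nlinarith
  have hHatt : ∃ i, |(h i : ℝ)| = H := by
    by_contra hcon
    push Not at hcon
    have : H < H := by
      conv_lhs => rw [hH]
      rw [pi_norm_lt_iff hHp]
      intro l
      exact lt_of_le_of_ne (hhl l) (hcon l)
    exact lt_irrefl _ this
  set y : Fin n → ℝ := Fin.append x (lam A 1 x) with hy
  have hdot : |(∑ l, y l * (h l : ℝ)) - k 0| ≤ (d + 1) * e := by
    have h1 : (∑ l, y l * (h l : ℝ)) - k 0 =
        (a 0 - k 0) + ∑ i : Fin d, x i * (a i.succ - k i.succ) := by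
      have e0 : (∑ l, y l * (h l : ℝ)) =
          (∑ i : Fin d, y (Fin.castAdd m i) * (h (Fin.castAdd m i) : ℝ)) +
          ∑ j : Fin m, y (Fin.natAdd d j) * (h (Fin.natAdd d j) : ℝ) :=
        Fin.sum_univ_add (fun l : Fin (d + m) => y l * (h l : ℝ))
      rw [e0]
      have e1 : ∀ i : Fin d, y (Fin.castAdd m i) * (h (Fin.castAdd m i) : ℝ) =
          -(x i * (k i.succ : ℝ)) := by
        intro i
        rw [hy, hh, Fin.append_left, Fin.append_left]
        push_cast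
        ring
      have e2 : ∀ j : Fin m, y (Fin.natAdd d j) * (h (Fin.natAdd d j) : ℝ) =
          A 0 j * (q0 j : ℝ) + ∑ i : Fin d, x i * (A i.succ j * (q0 j : ℝ)) := by
        intro j
        rw [hy, hh, Fin.append_right, Fin.append_right]
        unfold lam
        rw [one_mul, add_mul, sum_mul]
        congr 1
        exact sum_congr rfl fun i _ => by ring
      rw [sum_congr rfl fun i _ => e1 i, sum_congr rfl fun j _ => e2 j, sum_add_distrib,
        sum_comm, ← haj 0]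
      have e3 : ∀ i : Fin d, ∑ j, x i * (A i.succ j * (q0 j : ℝ)) = x i * a i.succ := by
        intro i
        rw [haj, mul_sum]
      rw [sum_congr rfl fun i _ => e3 i, sum_neg_distrib]
      have e4 : ∑ i : Fin d, x i * (a i.succ - k i.succ) =
          ∑ i : Fin d, x i * a i.succ - ∑ i : Fin d, x i * (k i.succ : ℝ) := by
        rw [← sum_sub_distrib]
        exact sum_congr rfl fun i _ => by ring
      rw [e4]
      ring
    rw [h1]
    have h2 : |∑ i : Fin d, x i * (a i.succ - k i.succ)| ≤ d * e := by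
      calc |∑ i : Fin d, x i * (a i.succ - k i.succ)|
          ≤ ∑ i : Fin d, |x i * (a i.succ - k i.succ)| := abs_sum_le_sum_abs _ _
        _ ≤ ∑ i : Fin d, e := by
            refine sum_le_sum fun i _ => ?_
            rw [abs_mul]
            calc |x i| * |a i.succ - k i.succ| ≤ 1 * e :=
                  mul_le_mul (hx i) (hke _) (abs_nonneg _) zero_le_one
              _ = e := one_mul e
        _ = d * e := by simp
    have h3 := abs_add_le (a 0 - k 0) (∑ i : Fin d, x i * (a i.succ - k i.succ))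
    have h4 := hke 0
    linarith
  obtain ⟨S', hS', hcard, hnear⟩ := hGP n ℕ (range (⌊V⌋₊ + 1)) (fun v l => (v : ℝ) * y l) h H
    (V ^ (-γ)) hn1 hψ0 hψ1 hH1 hhl hHatt (by
      intro v hv
      have hvV : (v : ℝ) ≤ V := by
        have : v ≤ ⌊V⌋₊ := by
          rw [mem_range] at hv
          omega
        exact (Nat.le_floor_iff hVp.le).1 this
      refine ⟨(v : ℤ) * k 0, ?_⟩
      have h1 : (∑ l, (v : ℝ) * y l * (h l : ℝ)) - (((v : ℤ) * k 0 : ℤ) : ℝ) =
          v * ((∑ l, y l * (h l : ℝ)) - k 0) := by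
        push_cast
        rw [mul_sub, mul_sum]
        congr 1
        exact sum_congr rfl fun l _ => by ring
      show |(∑ l, (v : ℝ) * y l * (h l : ℝ)) - (((v : ℤ) * k 0 : ℤ) : ℝ)| ≤ H * V ^ (-γ) / 4
      rw [h1, abs_mul, Nat.abs_cast]
      have h2 : (v : ℝ) * |(∑ l, y l * (h l : ℝ)) - k 0| ≤ V * ((d + 1) * e) :=
        mul_le_mul hvV hdot (abs_nonneg _) hVp.le
      have h3 : V * ((d + 1) * e) = (4 * (d + 1) * N ^ (ω' - ω)) / 4 := by
        rw [hV, he, Real.rpow_sub hNp, Real.rpow_neg hNp.le]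
        field_simp
      have h4 : N ^ (1 - ω' * γ) = N * V ^ (-γ) := by
        rw [hψ, Real.rpow_sub hNp, Real.rpow_one, Real.rpow_neg hNp.le]
        field_simp
      have h5 : N * V ^ (-γ) ≤ H * V ^ (-γ) := mul_le_mul_of_nonneg_right hHN hψ0.le
      rw [h4] at hE1
      linarith)
  -- two elements
  have hVlt : V < (S'.card : ℝ) * V := by
    have h1 : V < ((range (⌊V⌋₊ + 1)).card : ℝ) := by
      rw [card_range]
      push_cast
      exact Nat.lt_floor_add_one V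
    have h2 : (3 * (n : ℝ) / V ^ (-γ)) ^ (n - 1) * ((2 * n + 3) * H) ≤ V := by
      have h3 : (3 * (n : ℝ) / V ^ (-γ)) ^ (n - 1) =
          (3 * (n : ℝ)) ^ (n - 1) * N ^ (ω' * γ * (n - 1)) := by
        rw [hψ, Real.rpow_neg hNp.le, div_inv_eq_mul, mul_pow, ← Real.rpow_natCast (N ^ (ω' * γ)),
          ← Real.rpow_mul hNp.le, hcast]
      have h4 : N ^ (ω' * γ * (n - 1) + 1) = N ^ (ω' * γ * ((n : ℝ) - 1)) * N := by
        rw [Real.rpow_add hNp, Real.rpow_one]
      rw [h3]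
      rw [h4] at hE2
      have h5 : 0 ≤ (3 * (n : ℝ)) ^ (n - 1) * N ^ (ω' * γ * ((n : ℝ) - 1)) := by positivity
      have h6 : (2 * (n : ℝ) + 3) * H ≤ (2 * n + 3) * ((SA + 1) * N) :=
        mul_le_mul_of_nonneg_left hHC (by positivity)
      calc (3 * (n : ℝ)) ^ (n - 1) * N ^ (ω' * γ * ((n : ℝ) - 1)) * ((2 * n + 3) * H)
          ≤ (3 * (n : ℝ)) ^ (n - 1) * N ^ (ω' * γ * ((n : ℝ) - 1)) *
            ((2 * n + 3) * ((SA + 1) * N)) := mul_le_mul_of_nonneg_left h6 h5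
        _ = (3 * (n : ℝ)) ^ (n - 1) * ((2 * n + 3) * (SA + 1)) *
            (N ^ (ω' * γ * ((n : ℝ) - 1)) * N) := by ring
        _ ≤ V := hE2.le
    calc V < ((range (⌊V⌋₊ + 1)).card : ℝ) := h1
      _ ≤ _ := hcard
      _ ≤ (S'.card : ℝ) * V := mul_le_mul_of_nonneg_left h2 (Nat.cast_nonneg _)
  have h2 : 1 < S'.card := by
    by_contra hcon
    push Not at hcon
    have : (S'.card : ℝ) ≤ 1 := by exact_mod_cast hcon
    nlinarith
  obtain ⟨v, hv, w, hw, hvw⟩ := one_lt_card.1 h2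
  have key : ∀ v ∈ S', ∀ w ∈ S', w < v → ∃ q : ℕ, 1 ≤ q ∧ (q : ℝ) ≤ V ∧
      nearInt (fun l => (q : ℝ) * y l) ≤ V ^ (-γ) := by
    intro v hv w hw hlt
    obtain ⟨k', hk'⟩ := hnear v hv w hw
    have hvV : (v : ℝ) ≤ V := by
      have h3 := hS' hv
      have : v ≤ ⌊V⌋₊ := by
        rw [mem_range] at h3
        omega
      exact (Nat.le_floor_iff hVp.le).1 this
    refine ⟨v - w, by omega, ?_, ?_⟩
    · rw [Nat.cast_sub hlt.le]
      have : (0 : ℝ) ≤ w := Nat.cast_nonneg w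
      linarith
    · refine nearInt_le k' ?_
      rw [pi_norm_le_iff_of_nonneg hψ0.le]
      intro l
      rw [Nat.cast_sub hlt.le]
      have h4 := hk' l
      simp only [Pi.sub_apply, Real.norm_eq_abs]
      have h5 : ((v : ℝ) - w) * y l - k' l = v * y l - w * y l - k' l := by ring
      rw [h5]
      exact h4
  rcases Nat.lt_or_ge w v with h3 | h3
  · exact key v hv w hw h3
  · exact key w hw v hv (lt_of_le_of_ne h3 hvw)

theorem inf_good {n : ℕ} (y : Fin n → ℝ) (γ γ' : ℝ) (hγ' : 0 < γ') (hγ : γ' < γ)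
    (h : ∀ V0 : ℝ, ∃ V : ℝ, V0 ≤ V ∧ 1 ≤ V ∧ ∃ q : ℕ, 1 ≤ q ∧ (q : ℝ) ≤ V ∧
      nearInt (fun l => (q : ℝ) * y l) ≤ V ^ (-γ)) :
    {q : ℕ | nearInt (fun l => (q : ℝ) * y l) < ((q : ℝ) + 1) ^ (-γ')}.Infinite := by
  intro hfin
  obtain ⟨V1, hV1, hE1⟩ := pow_dom ((2 : ℝ) ^ γ') (-γ) (-γ') (by linarith)
  -- every large V gives a good q
  have hgood : ∀ V : ℝ, V1 ≤ V → ∀ q : ℕ, (q : ℝ) ≤ V →
      nearInt (fun l => (q : ℝ) * y l) ≤ V ^ (-γ) →
      q ∈ {q : ℕ | nearInt (fun l => (q : ℝ) * y l) < ((q : ℝ) + 1) ^ (-γ')} := by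
    intro V hV q hq hle
    have hVp : 0 < V := by linarith
    have h1 := hE1 V hV
    have h2 : V ^ (-γ) < ((q : ℝ) + 1) ^ (-γ') := by
      have h3 : (2 * V) ^ (-γ') ≤ ((q : ℝ) + 1) ^ (-γ') := by
        apply Real.rpow_le_rpow_of_nonpos (by positivity) (by linarith) (by linarith)
      have h4 : (2 * V) ^ (-γ') = (2 ^ γ')⁻¹ * V ^ (-γ') := by
        rw [Real.mul_rpow (by norm_num) hVp.le, Real.rpow_neg (by norm_num : (0:ℝ) ≤ 2)]
      have h5 : (0 : ℝ) < 2 ^ γ' := by positivity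
      have h6 : V ^ (-γ) < (2 ^ γ')⁻¹ * V ^ (-γ') := by
        rw [inv_mul_eq_div, lt_div_iff₀ h5]
        linarith
      linarith
    exact lt_of_le_of_lt hle h2
  set F := hfin.toFinset.filter (fun q => 1 ≤ q) with hF
  have hFne : F.Nonempty := by
    obtain ⟨V, hV, _, q, hq1, hqV, hq⟩ := h V1
    refine ⟨q, ?_⟩
    rw [hF, mem_filter, Set.Finite.mem_toFinset]
    exact ⟨hgood V hV q hqV hq, hq1⟩
  obtain ⟨q, hqF, hqmin⟩ := exists_min_image F (fun q => nearInt (fun l => (q : ℝ) * y l)) hFne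
  have hq1 : 1 ≤ q := (mem_filter.1 hqF).2
  have hzero : nearInt (fun l => (q : ℝ) * y l) ≤ 0 := by
    by_contra hcon
    push Not at hcon
    obtain ⟨V2, hV2, hE2⟩ := pow_dom ((nearInt (fun l => (q : ℝ) * y l))⁻¹) (-γ) 0 (by linarith)
    obtain ⟨V, hV, hV1', p, hp1, hpV, hp⟩ := h (max V1 V2)
    have h1 := hE2 V ((le_max_right _ _).trans hV)
    rw [Real.rpow_zero, inv_mul_lt_iff₀ hcon, mul_one] at h1
    have h2 : p ∈ F := by
      rw [hF, mem_filter, Set.Finite.mem_toFinset]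
      exact ⟨hgood V ((le_max_left _ _).trans hV) p hpV hp, hp1⟩
    have h3 := hqmin p h2
    linarith
  -- all multiples of q are good
  have hmul : ∀ j : ℕ, nearInt (fun l => ((j * q : ℕ) : ℝ) * y l) ≤ 0 := by
    intro j
    apply le_of_forall_pos_le_add
    intro ε hε
    rw [zero_add]
    obtain ⟨k, hk⟩ := nearInt_lt (lt_of_le_of_lt hzero (by positivity : 0 < ε / (j + 1)))
    refine nearInt_le (fun l => (j : ℤ) * k l) ?_
    have h1 : (fun l => ((j * q : ℕ) : ℝ) * y l) - (fun i => (((j : ℤ) * k i : ℤ) : ℝ)) =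
        (j : ℝ) • ((fun l => (q : ℝ) * y l) - fun i => (k i : ℝ)) := by
      funext l
      simp only [Pi.sub_apply, Pi.smul_apply, smul_eq_mul]
      push_cast
      ring
    rw [h1, norm_smul, Real.norm_natCast]
    have h2 : (j : ℝ) * ‖(fun l => (q : ℝ) * y l) - fun i => (k i : ℝ)‖ ≤ j * (ε / (j + 1)) :=
      mul_le_mul_of_nonneg_left hk.le (Nat.cast_nonneg j)
    have h3 : (j : ℝ) * (ε / (j + 1)) ≤ ε := by
      rw [mul_div_assoc', div_le_iff₀ (by positivity)]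
      nlinarith [Nat.cast_nonneg (α := ℝ) j]
    linarith
  have hinj : Function.Injective (fun j : ℕ => j * q) := fun a b hab =>
    Nat.eq_of_mul_eq_mul_right (by omega) hab
  apply Set.infinite_range_of_injective hinj
  refine hfin.subset ?_
  rintro _ ⟨j, rfl⟩
  exact lt_of_le_of_lt (hmul j) (by positivity)

theorem proj_lip (d m : ℕ) :
    LipschitzWith 1 (fun (y : EuclideanSpace ℝ (Fin (d + m))) (i : Fin d) =>
      y (Fin.castAdd m i)) := by
  apply LipschitzWith.of_dist_le_mul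
  intro y y'
  rw [NNReal.coe_one, one_mul, dist_pi_le_iff dist_nonneg]
  intro i
  rw [dist_eq_norm, dist_eq_norm]
  exact PiLp.norm_apply_le (y - y') (Fin.castAdd m i)

theorem pos_of_proj (d m : ℕ) (s : ℝ) (hs : 0 ≤ s) (K : Set (Fin d → ℝ))
    (S : Set (EuclideanSpace ℝ (Fin (d + m)))) (hK : 0 < μH[s] K)
    (h : ∀ x ∈ K, ∃ y ∈ S, ∀ i, y (Fin.castAdd m i) = x i) : 0 < μH[s] S := by
  have h1 := (proj_lip d m).hausdorffMeasure_image_le hs S
  rw [ENNReal.coe_one, ENNReal.one_rpow, one_mul] at h1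
  refine lt_of_lt_of_le hK (le_trans (measure_mono ?_) h1)
  intro x hx
  obtain ⟨y, hy, hyx⟩ := h x hx
  exact ⟨y, hy, funext hyx⟩

/-- **Job SD.** -/
theorem sd (hGP : S_GP) : S_SD := by
  intro d m A ω hd hm hω hinf
  have hnm : (1 : ℝ) ≤ (d : ℝ) + m := by
    have : (1 : ℝ) ≤ d := by exact_mod_cast hd
    have : (0 : ℝ) ≤ m := Nat.cast_nonneg m
    linarith
  obtain ⟨ω', γ, γ', h1, h2, h3, h4, h5, h6⟩ := params ((d : ℝ) + m) ω hnm hω
  refine ⟨fun q => ((q : ℝ) + 1) ^ (-γ'), 0, fun q => by positivity, ?_, ?_, ?_⟩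
  · intro p q hpq
    have : (p : ℝ) < q := by exact_mod_cast hpq
    exact Real.rpow_lt_rpow_of_neg (by positivity) (by linarith) (by linarith)
  · have h7 : (fun q : ℕ => (((q : ℝ) + 1) ^ (-γ')) ^ ((m : ℝ) + d) * (q : ℝ) ^ ((d : ℝ) - d)) =
        fun q : ℕ => (((q + 1 : ℕ) : ℝ)) ^ (-γ' * ((m : ℝ) + d)) := by
      funext q
      rw [sub_self, Real.rpow_zero, mul_one, ← Real.rpow_mul (by positivity)]
      push_cast
      rfl
    rw [h7]
    have h8 : Summable fun q : ℕ => ((q : ℕ) : ℝ) ^ (-γ' * ((m : ℝ) + d)) := by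
      rw [Real.summable_nat_rpow]
      have : 1 < γ' * ((m : ℝ) + d) := by
        rw [div_lt_iff₀ (by linarith)] at h3
        linarith
      linarith
    exact (summable_nat_add_iff (f := fun q : ℕ => ((q : ℕ) : ℝ) ^ (-γ' * ((m : ℝ) + d))) 1).2 h8
  · refine pos_of_proj d m d (Nat.cast_nonneg d) (Set.Icc (fun _ => -1) (fun _ => 1)) _ ?_ ?_
    · have h7 : (μH[(d : ℝ)] : Measure (Fin d → ℝ)) = volume := by
        have := hausdorffMeasure_pi_real (ι := Fin d)
        rwa [Fintype.card_fin] at this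
      rw [h7, Real.volume_Icc_pi, prod_const]
      have h8 : (0 : ENNReal) < ENNReal.ofReal (1 - -1) := by
        rw [ENNReal.ofReal_pos]
        norm_num
      exact ENNReal.pow_pos h8 _
    · intro x hx
      have hx' : ∀ i, |x i| ≤ 1 := fun i => abs_le.2 ⟨hx.1 i, hx.2 i⟩
      refine ⟨WithLp.toLp 2 (Fin.append x (lam A 1 x)), ⟨?_, x, fun l => rfl⟩, fun i => ?_⟩
      · have hg : 0 < γ := h2.trans h4
        have hω0 : 0 < ω := by linarith
        have h7 := inf_good (Fin.append x (lam A 1 x)) γ γ' h2 h4 (fun V0 =>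
          core hGP A ω ω' γ hd hω0 h1 hg h5 (by push_cast; exact h6) hinf x hx' V0)
        show {q : ℕ | nearInt (fun l => (q : ℝ) * (Fin.append x (lam A 1 x)) l - (0 : Fin (d + m) → ℝ) l) <
          ((q : ℝ) + 1) ^ (-γ')}.Infinite
        simp only [Pi.zero_apply, sub_zero]
        exact h7
      · show Fin.append x (lam A 1 x) (Fin.castAdd m i) = x i
        rw [Fin.append_left]

end Pool.Agent.Q53.JC
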